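import Pool.Agent.H76.SW.T

/-!
A path has tree-width at most one.
-/

namespace Pool.Agent.H74.SW

open Pool.Agent.H76.SW

theorem pf_D7 (h1 : U_d3_unroot) : U_d7_path := by
  intro n k hk
  refine h1 _ _ ⟨?_⟩
  refine
    { N := Fin (n + 1)
      fin := inferInstance
      par := fun i => if h : i = 0 then none else some (i.pred h).castSucc
      rk := fun i => i.val
      hrk := ?_
      B := fun i => if h : i = 0 then {i} else {i, (i.pred h).castSucc}
      cov := ?_
      edge := ?_
      conn := ?_
      card := ?_ }
  · intro x y hxy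
    by_cases h : x = 0
    · simp [h] at hxy
    · rw [dif_neg h] at hxy
      have h2 := Option.some.inj hxy
      rw [← h2]
      have h3 : x.val ≠ 0 := fun h4 => h (Fin.ext h4)
      simp only [Fin.val_castSucc, Fin.val_pred]
      omega
  · intro v
    refine ⟨v, ?_⟩
    by_cases h : v = 0
    · simp [h]
    · rw [dif_neg h]; simp
  · rintro u v ⟨hne, i, hi⟩
    refine ⟨i.succ, ?_⟩
    have h : i.succ ≠ 0 := Fin.succ_ne_zero i
    rw [dif_neg h]
    rcases hi with ⟨rfl, rfl⟩ | ⟨rfl, rfl⟩ <;> simp
  · intro v
    refine ⟨v, ?_, ?_⟩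
    · by_cases h : v = 0
      · simp [h]
      · rw [dif_neg h]; simp
    · intro x hx
      by_cases h : x = 0
      · rw [dif_pos h] at hx
        exact Or.inl (Finset.mem_singleton.1 hx).symm
      · rw [dif_neg h] at hx
        rcases Finset.mem_insert.1 hx with h2 | h2
        · exact Or.inl h2.symm
        · right
          refine ⟨v, ?_, ?_⟩
          · rw [dif_neg h, Finset.mem_singleton.1 h2]
          · by_cases h3 : v = 0
            · simp [h3]
            · rw [dif_neg h3]; simp
  · intro x
    by_cases h : x = 0
    · rw [dif_pos h]; simp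
    · rw [dif_neg h]
      exact (Finset.card_le_two).trans (by omega)

end Pool.Agent.H74.SW
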